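import Pool.Agent.H.MP_ae074a_al.G

namespace Pool.Agent.Results.MP_ae074a_al.Continuum
open Pool.Agent.H.MP_ae074a_al

/-- The factor `U / L` is abelian of exponent dividing `p` (for normal subgroups `L ≤ U`). -/
def Factor (p : ℕ) {G : Type} [Group G] (L U : Subgroup G) : Prop :=
  L ≤ U ∧ (∀ x ∈ U, x ^ p ∈ L) ∧ ∀ x ∈ U, ∀ y ∈ U, x⁻¹ * y⁻¹ * x * y ∈ L

/-- The variety `A_p ^ 3`: groups with a normal series `1 ≤ G1 ≤ G2 ≤ G` whose factors are
abelian of exponent dividing `p`. -/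
def Ap3 (p : ℕ) : Set GrpCat.{0} :=
  {G | ∃ G1 G2 : Subgroup G, G1.Normal ∧ G2.Normal ∧
    Factor p ⊥ G1 ∧ Factor p G1 G2 ∧ Factor p G2 ⊤}

theorem factor {p : ℕ} {G : Type} [Group G] (K : Subgroup G) : Factor p (Phi p K) K :=
  ⟨Phi_le_self, (Phi_le.1 le_rfl).1, fun x hx y hy => by
    simpa [commutatorElement_def] using (Phi_le.1 le_rfl).2 _ (inv_mem hx) _ (inv_mem hy)⟩

theorem result (p : ℕ) (hp : p.Prime) :
    Cardinal.mk {W : Set GrpCat.{0} // (∃ V, W = Var V) ∧ W ⊆ Ap3 p} = Cardinal.continuum := by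
  have := Fact.mk hp
  obtain ⟨V, h1, h2⟩ := fam p
  refine le_antisymm ?_ ?_
  · have := Cardinal.mk_range_le_lift (f := Var)
    simp only [Cardinal.mk_set, Cardinal.mk_eq_aleph0, Cardinal.two_power_aleph0,
      Cardinal.lift_continuum, Cardinal.lift_uzero] at this
    exact (Cardinal.mk_subtype_le_of_subset fun W hW => hW.1.imp fun _ => Eq.symm).trans this
  · have := Cardinal.lift_mk_le_lift_mk_of_injective (β := {W : Set GrpCat.{0} //
      (∃ V, W = Var V) ∧ W ⊆ Ap3 p}) (f := fun J => ⟨Var (V J), ⟨_, rfl⟩, fun G hG =>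
        ⟨_, _, Phi_normal (Phi_normal inferInstance), Phi_normal inferInstance,
          (h2 J G hG).1 ▸ factor _, factor _, factor _⟩⟩) fun J J' h => h1 (congrArg Subtype.val h)
    simpa using this

end Pool.Agent.Results.MP_ae074a_al.Continuum
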